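import Pool.Agent.helper90.FN.Spec

/-!
# Project fn, module G4: `dn` and `sk` are stopping rules
-/

set_option autoImplicit false

open scoped BigOperators Topology
open Filter MeasureTheory

namespace Pool.Agent.helper90.FN

open Finset
open Pool.Agent.helper72.UT (IsFor dep pth rt fors Reg lz)
open Pool.Agent.helper20.HP (ind HW W Par cc run lel lst lazyP tmix ustE height vol Setup CZ CP IsKer)

theorem G4_step {V : Type} [DecidableEq V] {G : SimpleGraph V} {C : Finset V}
    {f : V → V} (hf : IsFor G C f) (x v : V) (h : x ∈ pth C f v) (hx : x ∉ C) :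
    f x ∈ pth C f v := by
  revert h
  refine hf.ind (P := fun v => x ∈ pth C f v → f x ∈ pth C f v) ?_ ?_ v
  · intro v hv h
    rw [Pool.Agent.helper72.UT.pth_mem hv] at h
    have : x = v := by simpa using h
    exact absurd (this ▸ hv) hx
  · intro v hv ih h
    rw [Pool.Agent.helper72.UT.pth_not_mem hv (hf.hit v)] at h ⊢
    rcases List.mem_cons.1 h with h | h
    · rw [h]
      exact List.mem_cons_of_mem _ (Pool.Agent.helper72.UT.self_mem_pth (f v))
    · exact List.mem_cons_of_mem _ (ih h)

theorem G4_path {V : Type} [DecidableEq V] {G : SimpleGraph V} {C : Finset V}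
    {f f' : V → V} (hf : IsFor G C f) (hf' : IsFor G C f') (v : V)
    (h : ∀ x ∈ pth C f v, f' x = f x) :
    pth C f' v = pth C f v ∧ rt C f' v = rt C f v ∧ dep C f' v = dep C f v := by
  revert h
  refine hf.ind (P := fun v => (∀ x ∈ pth C f v, f' x = f x) →
    pth C f' v = pth C f v ∧ rt C f' v = rt C f v ∧ dep C f' v = dep C f v) ?_ ?_ v
  · intro v hv _
    rw [Pool.Agent.helper72.UT.pth_mem hv, Pool.Agent.helper72.UT.pth_mem hv,
      Pool.Agent.helper72.UT.rt_mem hv, Pool.Agent.helper72.UT.rt_mem hv,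
      Pool.Agent.helper72.UT.dep_mem hv, Pool.Agent.helper72.UT.dep_mem hv]
    exact ⟨rfl, rfl, rfl⟩
  · intro v hv ih h
    have e : f' v = f v := h v (Pool.Agent.helper72.UT.self_mem_pth v)
    rw [Pool.Agent.helper72.UT.pth_not_mem hv (hf.hit v)] at h
    obtain ⟨h1, h2, h3⟩ := ih (fun x hx => h x (List.mem_cons_of_mem _ hx))
    rw [Pool.Agent.helper72.UT.pth_not_mem hv (hf.hit v),
      Pool.Agent.helper72.UT.pth_not_mem hv (hf'.hit v),
      Pool.Agent.helper72.UT.rt_not_mem hv (hf.hit v),
      Pool.Agent.helper72.UT.rt_not_mem hv (hf'.hit v),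
      Pool.Agent.helper72.UT.dep_not_mem hv (hf.hit v),
      Pool.Agent.helper72.UT.dep_not_mem hv (hf'.hit v), e, h1, h2, h3]
    exact ⟨rfl, rfl, rfl⟩

theorem G4_sub {V : Type} [DecidableEq V] {G : SimpleGraph V} {C D : Finset V}
    {f : V → V} (hf : IsFor G C f) (hD : Cl C D f) (v : V) (hv : v ∈ D) :
    ∀ x ∈ pth C f v, x ∈ D := by
  revert hv
  refine hf.ind (P := fun v => v ∈ D → ∀ x ∈ pth C f v, x ∈ D) ?_ ?_ v
  · intro v hv hvD x hx
    rw [Pool.Agent.helper72.UT.pth_mem hv] at hx
    have : x = v := by simpa using hx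
    rwa [this]
  · intro v hv ih hvD x hx
    rw [Pool.Agent.helper72.UT.pth_not_mem hv (hf.hit v)] at hx
    rcases List.mem_cons.1 hx with hx | hx
    · rwa [hx]
    · exact ih (hD.map v hvD) x hx

theorem G4 : G4_stmt := by
  intro V _ _ G C
  simp only [Pool.Agent.helper72.UT.mem_fors]
  refine ⟨?_, ?_, ?_, ?_, ?_⟩
  · intro v f hf
    refine ⟨Finset.subset_union_left, ?_⟩
    intro x hx
    unfold dn at hx ⊢
    by_cases hxC : x ∈ C
    · rw [hf.fix x hxC]
      exact Finset.mem_union_left _ hxC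
    · rcases Finset.mem_union.1 hx with h | h
      · exact absurd h hxC
      · exact Finset.mem_union_right _
          (List.mem_toFinset.2 (G4_step hf x v (List.mem_toFinset.1 h) hxC))
  · intro v f hf f' hf' h
    obtain ⟨h1, h2, h3⟩ := G4_path hf hf' v
      (fun x hx => h x (Finset.mem_union_right _ (List.mem_toFinset.2 hx)))
    refine ⟨?_, h1, h2, h3⟩
    unfold dn
    rw [h1]
  · intro l f hf
    refine ⟨Finset.subset_union_left, ?_⟩
    intro x hx
    unfold sk at hx ⊢
    by_cases hxC : x ∈ C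
    · rw [hf.fix x hxC]
      exact Finset.mem_union_left _ hxC
    · rcases Finset.mem_union.1 hx with h | h
      · exact absurd h hxC
      · obtain ⟨v, hv, hxv⟩ := Finset.mem_biUnion.1 h
        exact Finset.mem_union_right _ (Finset.mem_biUnion.2 ⟨v, hv,
          List.mem_toFinset.2 (G4_step hf x v (List.mem_toFinset.1 hxv) hxC)⟩)
  · intro l f hf f' hf' h
    unfold sk
    congr 1
    refine Finset.biUnion_congr rfl (fun v hv => ?_)
    rw [(G4_path hf hf' v (fun x hx => h x (Finset.mem_union_right _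
      (Finset.mem_biUnion.2 ⟨v, hv, List.mem_toFinset.2 hx⟩)))).1]
  · intro D f hf f' hf' hD h
    refine ⟨⟨hD.sub, fun x hx => ?_⟩, fun x hx => ?_⟩
    · rw [h x hx]
      exact hD.map x hx
    · exact (G4_path hf hf' x (fun y hy => h y (G4_sub hf hD x hx y hy))).2

end Pool.Agent.helper90.FN
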