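import Pool.Agent.helper90.FN.Spec

/-!
# Project fn, module TL: tail bound for `nb` (Chernoff on both sides plus the excess)
-/

set_option autoImplicit false

open scoped BigOperators Topology
open Filter MeasureTheory

namespace Pool.Agent.helper90.FN

open Finset
open Pool.Agent.helper72.UT (IsFor dep pth rt fors Reg lz)
open Pool.Agent.helper20.HP (ind HW W Par cc run lel lst lazyP tmix ustE height vol Setup CZ CP IsKer)

section
variable {V : Type} [Fintype V] [DecidableEq V]

theorem TL_EF_mono (G : SimpleGraph V) (B : Finset V) (F F' : (V → V) → ℝ)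
    (h : ∀ f ∈ fors G B, F f ≤ F' f) : EF G B F ≤ EF G B F' := by
  unfold EF
  exact div_le_div_of_nonneg_right (Finset.sum_le_sum h) (Nat.cast_nonneg _)

theorem TL_EF_nonneg (G : SimpleGraph V) (B : Finset V) (F : (V → V) → ℝ)
    (h : ∀ f ∈ fors G B, 0 ≤ F f) : 0 ≤ EF G B F := by
  unfold EF
  exact div_nonneg (Finset.sum_nonneg h) (Nat.cast_nonneg _)

theorem TL_EF_add (G : SimpleGraph V) (B : Finset V) (F F' : (V → V) → ℝ) :
    EF G B (fun f => F f + F' f) = EF G B F + EF G B F' := by
  unfold EF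
  rw [Finset.sum_add_distrib, add_div]

theorem TL_EF_mul_left (G : SimpleGraph V) (B : Finset V) (c : ℝ) (F : (V → V) → ℝ) :
    EF G B (fun f => c * F f) = c * EF G B F := by
  unfold EF
  rw [← Finset.mul_sum, mul_div_assoc]

theorem TL_EF_weights (G : SimpleGraph V) (B : Finset V) (F : (V → V) → ℝ) :
    ∑ f ∈ fors G B, ((fors G B).card : ℝ)⁻¹ * F f = EF G B F := by
  unfold EF
  rw [← Finset.mul_sum, div_eq_inv_mul]

end

theorem TL (up : UP_stmt) (dn' : DN_stmt) (ou : OU_stmt) (od : OD_stmt) (hs : HS_stmt) :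
    TL_stmt := by
  intro V _ _ G C ℓ r w b lam x F hG hC hb hlam hlb hx0 hF
  set Φ : ℝ := EF G C (nb C C ℓ r w) with hΦ
  set ε : ℝ := EF G C (exc C ℓ r w b) with hε
  have hN : 0 < (fors G C).card := Finset.card_pos.2 (Pool.Agent.helper72.UT.fors_nonempty hG hC)
  have hN' : (0 : ℝ) < ((fors G C).card : ℝ) := by exact_mod_cast hN
  have hnb : ∀ f ∈ fors G C, 0 ≤ nb C C ℓ r w f := fun f hf =>
    (hs V G C f ℓ r w b hb hf).2.1.trans (hs V G C f ℓ r w b hb hf).2.2.1
  have hΦ0 : 0 ≤ Φ := TL_EF_nonneg G C _ hnb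
  have hε0 : 0 ≤ ε := TL_EF_nonneg G C _ (fun f hf => (hs V G C f ℓ r w b hb hf).2.2.2.2.1)
  have hp0 : ∀ f ∈ fors G C, (0 : ℝ) ≤ ((fors G C).card : ℝ)⁻¹ := fun _ _ =>
    inv_nonneg.2 hN'.le
  have hp1 : ∑ f ∈ fors G C, ((fors G C).card : ℝ)⁻¹ = 1 := by
    rw [Finset.sum_const, nsmul_eq_mul, mul_inv_cancel₀ hN'.ne']
  -- upper exponential moment
  have hU : EF G C (fun f => Real.exp (lam * HB C C ℓ r w b f)) ≤
      Real.exp (lam * Φ + Φ * lam ^ 2 * b) := by
    have := ou (V → V) (fors G C) (fun _ => ((fors G C).card : ℝ)⁻¹) (HB C C ℓ r w b) Φ b hp0 hp1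
      hb hΦ0 (fun l hl => by
        rw [TL_EF_weights G C (fun f => HB C C ℓ r w b f * Real.exp (l * HB C C ℓ r w b f)),
          TL_EF_weights G C (fun f => Real.exp (l * HB C C ℓ r w b f))]
        exact up V G C ℓ r w b l hG hC hb hl) lam hlam.le hlb
    rwa [TL_EF_weights G C (fun f => Real.exp (lam * HB C C ℓ r w b f))] at this
  -- lower exponential moment
  have hD : EF G C (fun f => Real.exp (-(lam * HB C C ℓ r w b f))) ≤
      Real.exp (-(lam * Φ) + Φ * lam ^ 2 * b) + lam * ε := by
    have := od (V → V) (fors G C) (fun _ => ((fors G C).card : ℝ)⁻¹) (HB C C ℓ r w b) Φ b ε hp0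
      hp1 hb hΦ0 hε0 (fun l hl => by
        rw [TL_EF_weights G C (fun f => HB C C ℓ r w b f * Real.exp (-(l * HB C C ℓ r w b f))),
          TL_EF_weights G C (fun f => Real.exp (-(l * HB C C ℓ r w b f)))]
        exact dn' V G C ℓ r w b l hG hC hb hl) lam hlam.le
    rwa [TL_EF_weights G C (fun f => Real.exp (-(lam * HB C C ℓ r w b f)))] at this
  -- pointwise bound
  have hpt : ∀ f ∈ fors G C, ind (x < |nb C C ℓ r w f - Φ|) ≤
      (Real.exp (-(lam * Φ) - lam * x) * Real.exp (lam * HB C C ℓ r w b f) +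
        Real.exp (lam * Φ - lam * x) * Real.exp (-(lam * HB C C ℓ r w b f))) +
        2 / b * exc C ℓ r w (b / 2) f := by
    intro f hf
    obtain ⟨-, -, -, -, -, h6, h7⟩ := hs V G C f ℓ r w b hb hf
    have he0 : 0 ≤ exc C ℓ r w (b / 2) f :=
      (hs V G C f ℓ r w (b / 2) (by linarith) hf).2.2.2.2.1
    have e1 := Real.exp_pos (-(lam * Φ) - lam * x)
    have e2 := Real.exp_pos (lam * HB C C ℓ r w b f)
    have e3 := Real.exp_pos (lam * Φ - lam * x)
    have e4 := Real.exp_pos (-(lam * HB C C ℓ r w b f))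
    have t3 : 0 ≤ 2 / b * exc C ℓ r w (b / 2) f := mul_nonneg (by positivity) he0
    unfold ind
    split_ifs with hlt
    · by_cases hgood : ∀ x, x ∉ C → f x ∈ C → hx C ℓ r w f x ≤ b
      · have heq := h6 hgood
        rw [← heq] at hlt
        rcases lt_abs.1 hlt with h | h
        · have : 1 ≤ Real.exp (-(lam * Φ) - lam * x) * Real.exp (lam * HB C C ℓ r w b f) := by
            rw [← Real.exp_add]
            apply Real.one_le_exp
            nlinarith
          have := mul_pos e3 e4
          linarith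
        · have : 1 ≤ Real.exp (lam * Φ - lam * x) * Real.exp (-(lam * HB C C ℓ r w b f)) := by
            rw [← Real.exp_add]
            apply Real.one_le_exp
            nlinarith
          have := mul_pos e1 e2
          linarith
      · have h8 := h7 hgood
        have : 1 ≤ 2 / b * exc C ℓ r w (b / 2) f := by
          calc (1 : ℝ) = 2 / b * (b / 2) := by field_simp
            _ ≤ _ := mul_le_mul_of_nonneg_left h8 (by positivity)
        have := mul_pos e3 e4
        have := mul_pos e1 e2
        linarith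
    · have := mul_pos e3 e4
      have := mul_pos e1 e2
      linarith
  have hfin := TL_EF_mono G C _ _ hpt
  rw [TL_EF_add, TL_EF_add, TL_EF_mul_left, TL_EF_mul_left, TL_EF_mul_left] at hfin
  refine hfin.trans ?_
  have hsq : 0 ≤ lam ^ 2 * b := by positivity
  have a1 : Real.exp (-(lam * Φ) - lam * x) *
      EF G C (fun f => Real.exp (lam * HB C C ℓ r w b f)) ≤
      Real.exp (-(lam * x) + F * lam ^ 2 * b) := by
    refine (mul_le_mul_of_nonneg_left hU (Real.exp_pos _).le).trans ?_
    rw [← Real.exp_add]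
    apply Real.exp_le_exp.2
    nlinarith [mul_le_mul_of_nonneg_right hF hsq]
  have a2 : Real.exp (lam * Φ - lam * x) *
      EF G C (fun f => Real.exp (-(lam * HB C C ℓ r w b f))) ≤
      Real.exp (-(lam * x) + F * lam ^ 2 * b) + lam * Real.exp (lam * F) * ε := by
    refine (mul_le_mul_of_nonneg_left hD (Real.exp_pos _).le).trans ?_
    rw [mul_add]
    refine add_le_add ?_ ?_
    · rw [← Real.exp_add]
      apply Real.exp_le_exp.2
      nlinarith [mul_le_mul_of_nonneg_right hF hsq]
    · have : Real.exp (lam * Φ - lam * x) ≤ Real.exp (lam * F) := by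
        apply Real.exp_le_exp.2
        nlinarith [mul_le_mul_of_nonneg_left hF hlam.le, mul_nonneg hlam.le hx0]
      calc Real.exp (lam * Φ - lam * x) * (lam * ε) ≤ Real.exp (lam * F) * (lam * ε) :=
            mul_le_mul_of_nonneg_right this (mul_nonneg hlam.le hε0)
        _ = lam * Real.exp (lam * F) * ε := by ring
  linarith

end Pool.Agent.helper90.FN
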