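import Pool.Agent.helper90.FN.Spec

/-!
# Project fn, module UP: the size bias inequality for `HB`

`HB ≤ nb = ∑_v ind_v`; for each `v` the tower property along `dn C f v`, HG (gluing costs `b`) and the
domination DOM give `E[ind_v e^{λ HB}] ≤ e^{λ b} E[ind_v] E[e^{λ HB}]`.
-/

set_option autoImplicit false

open scoped BigOperators Topology
open Filter MeasureTheory

namespace Pool.Agent.helper90.FN

open Finset
open Pool.Agent.helper72.UT (IsFor dep pth rt fors Reg lz)
open Pool.Agent.helper20.HP (ind HW W Par cc run lel lst lazyP tmix ustE height vol Setup CZ CP IsKer)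

section
variable {V : Type} [Fintype V] [DecidableEq V]

theorem UP_EF_mono (G : SimpleGraph V) (B : Finset V) (F F' : (V → V) → ℝ)
    (h : ∀ f ∈ fors G B, F f ≤ F' f) : EF G B F ≤ EF G B F' := by
  unfold EF
  exact div_le_div_of_nonneg_right (Finset.sum_le_sum h) (Nat.cast_nonneg _)

theorem UP_EF_congr (G : SimpleGraph V) (B : Finset V) (F F' : (V → V) → ℝ)
    (h : ∀ f ∈ fors G B, F f = F' f) : EF G B F = EF G B F' := by
  unfold EF
  rw [Finset.sum_congr rfl h]

theorem UP_EF_mul_left (G : SimpleGraph V) (B : Finset V) (c : ℝ) (F : (V → V) → ℝ) :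
    EF G B (fun f => c * F f) = c * EF G B F := by
  unfold EF
  rw [← Finset.mul_sum, mul_div_assoc]

theorem UP_EF_mul_right (G : SimpleGraph V) (B : Finset V) (c : ℝ) (F : (V → V) → ℝ) :
    EF G B (fun f => F f * c) = EF G B F * c := by
  unfold EF
  rw [← Finset.sum_mul, div_mul_eq_mul_div]

theorem UP_EF_sum {ι : Type} (s : Finset ι) (G : SimpleGraph V) (B : Finset V)
    (F : ι → (V → V) → ℝ) :
    EF G B (fun f => ∑ i ∈ s, F i f) = ∑ i ∈ s, EF G B (F i) := by
  unfold EF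
  rw [Finset.sum_comm, Finset.sum_div]

theorem UP_ind_nonneg (p : Prop) : 0 ≤ ind p := by
  unfold ind
  split_ifs <;> norm_num

theorem UP_ind_false {p : Prop} (h : ¬ p) : ind p = 0 := by
  unfold ind
  rw [if_neg h]

theorem UP_one (g1 : G1_stmt) (g3 : G3_stmt) (g4 : G4_stmt) (hg : HG_stmt) (hm : HM_stmt)
    (dom : DOM_stmt) (G : SimpleGraph V) (C : Finset V) (ℓ : V → ℕ) (r w : ℕ) (b lam : ℝ)
    (hG : G.Connected) (hC : C.Nonempty) (hb : 0 < b) (hlam : 0 ≤ lam) (v : V) :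
    EF G C (fun f => ind (v ∉ C ∧ rt C f v ∈ C ∧ r ≤ lv C ℓ f v ∧ lv C ℓ f v < r + w) *
        Real.exp (lam * HB C C ℓ r w b f)) ≤
      EF G C (fun f => ind (v ∉ C ∧ rt C f v ∈ C ∧ r ≤ lv C ℓ f v ∧ lv C ℓ f v < r + w)) *
        (Real.exp (lam * b) * EF G C (fun f => Real.exp (lam * HB C C ℓ r w b f))) := by
  obtain ⟨g4a, g4b, -, -, -⟩ := g4 V G C
  rw [g3 V G C (fun f => dn C f v) (g4a v)
    (fun f hf f' hf' h => (g4b v f hf f' hf' h).1)]
  rw [← UP_EF_mul_right]
  refine UP_EF_mono G C _ _ (fun f hf => ?_)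
  by_cases hv : v ∈ C
  · rw [UP_ind_false (fun h => h.1 hv), zero_mul]
    have : ∀ g ∈ fors G (dn C f v),
        ind (v ∉ C ∧ rt C (glue (dn C f v) f g) v ∈ C ∧ r ≤ lv C ℓ (glue (dn C f v) f g) v ∧
          lv C ℓ (glue (dn C f v) f g) v < r + w) *
        Real.exp (lam * HB C C ℓ r w b (glue (dn C f v) f g)) = 0 := by
      intro g _
      rw [UP_ind_false (fun h => h.1 hv), zero_mul]
    unfold EF
    rw [Finset.sum_eq_zero this]
    simp
  · set I : ℝ := ind (v ∉ C ∧ rt C f v ∈ C ∧ r ≤ lv C ℓ f v ∧ lv C ℓ f v < r + w) with hI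
    have hI0 : 0 ≤ I := UP_ind_nonneg _
    have hcl := g4a v f hf
    have h1 : EF G (dn C f v) (fun g =>
        ind (v ∉ C ∧ rt C (glue (dn C f v) f g) v ∈ C ∧ r ≤ lv C ℓ (glue (dn C f v) f g) v ∧
          lv C ℓ (glue (dn C f v) f g) v < r + w) *
        Real.exp (lam * HB C C ℓ r w b (glue (dn C f v) f g))) ≤
        EF G (dn C f v) (fun g => (I * Real.exp (lam * b)) *
          Real.exp (lam * HB (dn C f v) C ℓ r w b g)) := by
      refine UP_EF_mono G _ _ _ (fun g hgg => ?_)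
      have hglue := (g1 V G C (dn C f v) f g hf hcl hgg).1
      have hag : ∀ x ∈ dn C f v, glue (dn C f v) f g x = f x := by
        intro x hx
        unfold glue
        rw [if_pos hx]
      obtain ⟨-, -, e2, e3⟩ := g4b v f hf _ hglue hag
      have e4 : lv C ℓ (glue (dn C f v) f g) v = lv C ℓ f v := by
        unfold lv
        rw [e2, e3]
      rw [e2, e4, ← hI, mul_assoc, ← Real.exp_add]
      refine mul_le_mul_of_nonneg_left (Real.exp_le_exp.2 ?_) hI0
      have := hg V G C f g v ℓ r w b hb.le hf hv hgg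
      nlinarith
    refine h1.trans ?_
    rw [UP_EF_mul_left, mul_assoc]
    refine mul_le_mul_of_nonneg_left (mul_le_mul_of_nonneg_left ?_ (Real.exp_pos _).le) hI0
    exact dom V G C (fun R f => Real.exp (lam * HB R C ℓ r w b f)) hC hG
      (fun R R' f f' hR hR' hf hf' h => Real.exp_le_exp.2 (mul_le_mul_of_nonneg_left
        (hm V G C R R' f f' ℓ r w b hb.le hR hR' hf hf' h) hlam))
      C (dn C f v) (Finset.Subset.refl _) hcl.sub

end

theorem UP (g1 : G1_stmt) (g3 : G3_stmt) (g4 : G4_stmt) (hs : HS_stmt) (hg : HG_stmt)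
    (hm : HM_stmt) (dom : DOM_stmt) : UP_stmt := by
  intro V _ _ G C ℓ r w b lam hG hC hb hlam
  have h1 : EF G C (fun f => HB C C ℓ r w b f * Real.exp (lam * HB C C ℓ r w b f)) ≤
      EF G C (fun f => nb C C ℓ r w f * Real.exp (lam * HB C C ℓ r w b f)) :=
    UP_EF_mono G C _ _ (fun f hf =>
      mul_le_mul_of_nonneg_right (hs V G C f ℓ r w b hb hf).2.2.1 (Real.exp_pos _).le)
  refine h1.trans ?_
  have h2 : EF G C (fun f => nb C C ℓ r w f * Real.exp (lam * HB C C ℓ r w b f)) =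
      ∑ v, EF G C (fun f =>
        ind (v ∉ C ∧ rt C f v ∈ C ∧ r ≤ lv C ℓ f v ∧ lv C ℓ f v < r + w) *
        Real.exp (lam * HB C C ℓ r w b f)) := by
    rw [← UP_EF_sum]
    refine UP_EF_congr G C _ _ (fun f _ => ?_)
    unfold nb
    rw [Finset.sum_mul]
  have h3 : EF G C (nb C C ℓ r w) = ∑ v, EF G C (fun f =>
        ind (v ∉ C ∧ rt C f v ∈ C ∧ r ≤ lv C ℓ f v ∧ lv C ℓ f v < r + w)) := by
    rw [← UP_EF_sum]
    rfl
  rw [h2, h3, mul_assoc, Finset.sum_mul]
  exact Finset.sum_le_sum (fun v _ => UP_one g1 g3 g4 hg hm dom G C ℓ r w b lam hG hC hb hlam v)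

end Pool.Agent.helper90.FN
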